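import Pool.Agent.H87.EBK.Stmts3

/-!
Row LEAF of the board `ebt`
-/

namespace Pool.EBK

theorem leaf : LEAF := by
  classical
  intro V _ _ T hT
  have := Fintype.ofFinite V
  rcases subsingleton_or_nontrivial V with hs | hs
  · obtain ⟨z⟩ := (inferInstance : Nonempty V)
    exact ⟨z, z, fun u _ => Subsingleton.elim u z⟩
  · have htop : (⊤ : SimpleGraph V).Connected := SimpleGraph.connected_top
    obtain ⟨F, h1, -, h3⟩ := htop.exists_isTree_le_of_le_of_isAcyclic le_top hT
    obtain ⟨z, hz⟩ := h3.exists_vert_degree_one_of_nontrivial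
    obtain ⟨x, -, hx⟩ := SimpleGraph.degree_eq_one_iff_existsUnique_adj.1 hz
    exact ⟨z, x, fun u hu => hx u (h1 hu)⟩

end Pool.EBK
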